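import Pool.Agent.W_f569db_v2.Defs
import Pool.Agent.W_f569db_h64.Main

set_option autoImplicit false

/-!
# If `D` holds for the `Y_a` and `Z_b`, numerically trivial modulo boundaries implies boundary
-/

noncomputable section

namespace H82R

open Pool.Agent.WeilH_h6 Pool.Agent.WeilH_h6.VarClass Pool.Agent.WeilH_h6.Weil H64N

universe u v w

/-- double annihilator -/
lemma exists_sub_ann {C P : Type*} [AddCommGroup C] [Module ℚ C] [AddCommGroup P] [Module ℚ P]
    (p : C →ₗ[ℚ] P →ₗ[ℚ] ℚ) {ι : Type*} [Finite ι] (w : ι → P)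
    (hw : ∀ c, (∀ i, p c (w i) = 0) → ∀ v, p c v = 0) (U : Submodule ℚ C) (x : C)
    (hx : ∀ v, (∀ u ∈ U, p u v = 0) → p x v = 0) : ∃ u ∈ U, ∀ v, p (x - u) v = 0 := by
  classical
  have := Fintype.ofFinite ι
  let T : C →ₗ[ℚ] (ι → ℚ) := LinearMap.pi fun i => p.flip (w i)
  have hT : ∀ c i, T c i = p c (w i) := fun c i => rfl
  by_cases h : T x ∈ U.map T
  · obtain ⟨u, hu, hux⟩ := h
    refine ⟨u, hu, hw _ fun i => ?_⟩
    rw [← hT, map_sub, hux, sub_self]
    rfl
  · exfalso
    obtain ⟨f, hf, hfU⟩ := Submodule.exists_le_ker_of_notMem h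
    have hf' : ∀ t, f t = ∑ i, f (Pi.single i 1) * t i := by
      intro t
      have h1 : t = ∑ i, t i • (Pi.single i (1 : ℚ) : ι → ℚ) := by
        funext j
        simp [Finset.sum_apply, Pi.single_apply]
      conv_lhs => rw [h1]
      rw [map_sum]
      refine Finset.sum_congr rfl fun i _ => ?_
      rw [map_smul, smul_eq_mul, mul_comm]
    let v : P := ∑ i, f (Pi.single i 1) • w i
    have hv : ∀ c, p c v = f (T c) := by
      intro c
      rw [hf', map_sum]
      refine Finset.sum_congr rfl fun i _ => ?_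
      rw [map_smul, smul_eq_mul, hT]
    apply hf
    rw [← hv]
    refine hx v fun u hu => ?_
    rw [hv]
    exact hfU (Submodule.mem_map_of_mem hu)

variable {k : Type u} [Field k] {𝒱 : VarClass k} {K : Type v} [Field K] [CharZero K]
  (W : Weil.{u, v, w} 𝒱 K)

/-- intersection numbers as a bilinear form -/
def numForm {X : 𝒱.Obj} {i j : ℕ} (h : i + j = X.dim) : Cyc X i →ₗ[ℚ] Cyc X j →ₗ[ℚ] ℚ :=
  LinearMap.mk₂ ℚ (fun z z' => (W.exists_rat h z z').choose)
    (fun z y z' => by
      apply Rat.cast_injective (α := K)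
      rw [Rat.cast_add, ← (W.exists_rat h (z + y) z').choose_spec,
        ← (W.exists_rat h z z').choose_spec, ← (W.exists_rat h y z').choose_spec, W.cl_add, add_mul,
        map_add])
    (fun q z z' => by
      apply Rat.cast_injective (α := K)
      rw [smul_eq_mul, Rat.cast_mul, ← (W.exists_rat h (q • z) z').choose_spec,
        ← (W.exists_rat h z z').choose_spec, W.cl_smul, smul_mul_assoc, map_smul, smul_eq_mul])
    (fun z y z' => by
      apply Rat.cast_injective (α := K)
      rw [Rat.cast_add, ← (W.exists_rat h z (y + z')).choose_spec,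
        ← (W.exists_rat h z y).choose_spec, ← (W.exists_rat h z z').choose_spec, W.cl_add, mul_add,
        map_add])
    (fun q z z' => by
      apply Rat.cast_injective (α := K)
      rw [smul_eq_mul, Rat.cast_mul, ← (W.exists_rat h z (q • z')).choose_spec,
        ← (W.exists_rat h z z').choose_spec, W.cl_smul, mul_smul_comm, map_smul, smul_eq_mul])

lemma numForm_apply {X : 𝒱.Obj} {i j : ℕ} (h : i + j = X.dim) (z : Cyc X i) (z' : Cyc X j) :
    (numForm W h z z' : K) = W.deg (W.cl z * W.cl z') :=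
  (W.exists_rat h z z').choose_spec.symm

/-- intersection numbers, zero in case of large codimension -/
def numF (X : 𝒱.Obj) (i : ℕ) : Cyc X i →ₗ[ℚ] Cyc X (X.dim - i) →ₗ[ℚ] ℚ :=
  if h : i ≤ X.dim then numForm W (Nat.add_sub_cancel' h) else 0

lemma cl_eq_zero_of_lt {X : 𝒱.Obj} {i : ℕ} (h : X.dim < i) (z : Cyc X i) : W.cl z = 0 := by
  have h1 := W.cl_mem_grad z
  rw [W.vanish X (2 * i) (by omega)] at h1
  exact (Submodule.mem_bot K).1 h1

lemma numF_apply {X : 𝒱.Obj} {i : ℕ} (z : Cyc X i) (z' : Cyc X (X.dim - i)) :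
    (numF W X i z z' : K) = W.deg (W.cl z * W.cl z') := by
  unfold numF
  split_ifs with h
  · exact numForm_apply W _ z z'
  · rw [cl_eq_zero_of_lt W (by omega) z, zero_mul]
    exact Rat.cast_zero.trans (map_zero (W.tr X)).symm

lemma numTrivial_of_numF {X : 𝒱.Obj} {i : ℕ} {z : Cyc X i} (h : ∀ z', numF W X i z z' = 0) :
    W.NumTrivial z := by
  intro j z' hij
  obtain rfl : j = X.dim - i := by omega
  exact (numF_apply W z z').symm.trans (by rw [h z', Rat.cast_zero])

variable {k' : Type u} [Field k'] {𝒱' : VarClass k'}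
  {X : 𝒱.Obj} {i : ℕ} (s : SpData X i 𝒱') (W' : Weil.{u, v, w} 𝒱' K)

/-- tuples of cycles -/
abbrev CT : Type u := ∀ a, Cyc (s.Y a) (s.c a)

/-- tuples of cycles of complementary codimension -/
abbrev DT : Type u := ∀ a, Cyc (s.Y a) ((s.Y a).dim - s.c a)

/-- the form on tuples -/
def tform : CT s →ₗ[ℚ] DT s →ₗ[ℚ] ℚ :=
  ∑ a, (numF W' (s.Y a) (s.c a)).compl₁₂ (LinearMap.proj a) (LinearMap.proj a)

lemma tform_apply (x : CT s) (w : DT s) :
    (tform s W' x w : K) = ∑ a, W'.deg (W'.cl (x a) * W'.cl (w a)) := by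
  have h1 : tform s W' x w = ∑ a, numF W' (s.Y a) (s.c a) (x a) (w a) := by
    unfold tform
    simp only [LinearMap.sum_apply]
    rfl
  rw [h1, Rat.cast_sum]
  exact Finset.sum_congr rfl fun a _ => numF_apply W' _ _

/-- the classes of a tuple -/
def clw (w : DT s) : s.Tup W' := fun a => W'.cl (w a)

lemma exists_family : ∃ (T : Set (s.Tup W')) (_ : Finite T), T ⊆ Set.range (clw s W') ∧
    Set.range (clw s W') ⊆ Submodule.span K T := by
  obtain ⟨b, hb, hs, hi⟩ := exists_linearIndependent K (Set.range (clw s W'))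
  refine ⟨b, ?_, hb, ?_⟩
  · exact hi.finite
  · rw [hs]
    exact Submodule.subset_span

/-- The tuples of cycles which are boundaries of cycles. -/
def bdU : Submodule ℚ (CT s) where
  carrier := {u | ∃ v : ∀ b, Cyc (s.Z b) ((s.Z b).dim - s.e b),
    ∀ a y, W'.deg (W'.cl (u a) * y) =
      ∑ b, W'.deg (W'.cl (s.Γ b a) * W'.cross (W'.cl (v b)) y)}
  zero_mem' := ⟨0, fun a y => by
    change W'.tr _ (W'.cl (0 : Cyc (s.Y a) (s.c a)) * y) = ∑ b, W'.tr _ (W'.cl (s.Γ b a) *
      (W'.pull _ (W'.cl (0 : Cyc (s.Z b) _)) * _))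
    simp only [W'.RatNT_cl_zero, zero_mul, mul_zero, map_zero, Finset.sum_const_zero]⟩
  add_mem' := by
    rintro u u' ⟨v, h⟩ ⟨v', h'⟩
    refine ⟨v + v', fun a y => ?_⟩
    have e1 : W'.deg (W'.cl ((u + u') a) * y) = W'.deg (W'.cl (u a) * y) +
        W'.deg (W'.cl (u' a) * y) := by
      change W'.tr _ (W'.cl (u a + u' a) * y) = _
      rw [W'.cl_add, add_mul, map_add]
    rw [e1, h, h', ← Finset.sum_add_distrib]
    refine Finset.sum_congr rfl fun b _ => ?_
    change _ = W'.tr _ (W'.cl (s.Γ b a) * (W'.pull _ (W'.cl (v b + v' b)) * _))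
    rw [W'.cl_add, map_add, add_mul, mul_add, map_add]
  smul_mem' := by
    rintro q u ⟨v, h⟩
    refine ⟨q • v, fun a y => ?_⟩
    have e1 : W'.deg (W'.cl ((q • u) a) * y) = (q : K) * W'.deg (W'.cl (u a) * y) := by
      change W'.tr _ (W'.cl (q • u a) * y) = _
      rw [W'.cl_smul, smul_mul_assoc, map_smul, smul_eq_mul]
    rw [e1, h, Finset.mul_sum]
    refine Finset.sum_congr rfl fun b _ => ?_
    change _ = W'.tr _ (W'.cl (s.Γ b a) * (W'.pull _ (W'.cl (q • v b)) * _))
    rw [W'.cl_smul, map_smul, smul_mul_assoc, mul_smul_comm, map_smul, smul_eq_mul]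

lemma isBoundary_of_bdU {u : CT s} (hu : u ∈ bdU s W') :
    s.IsBoundary W' fun a => W'.cl (u a) := by
  obtain ⟨v, h⟩ := hu
  exact ⟨fun b => W'.cl (v b), h⟩

section moves

variable (W : Weil.{u, v, w} 𝒱' K)

/-- the cycle `pr_{1*} (γ · pr_2^* w)` -/
lemma exists_back {Z Y : 𝒱'.Obj} {e c : ℕ} (γ : Cyc (Z.prod Y) (e + c)) (h : c ≤ Y.dim)
    (w : Cyc Y (Y.dim - c)) : ∃ t : Cyc Z e, ∀ y,
      W.deg (W.cl t * y) = W.deg (W.cl γ * W.cross y (W.cl w)) := by
  obtain ⟨t1, h1⟩ := W.alg_pull (Obj.snd Z Y) _ w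
  obtain ⟨t2, h2⟩ := W.alg_mul _ _ _ γ t1
  obtain ⟨t3, h3⟩ := W.alg_push (Obj.fst Z Y) (e + c + (Y.dim - c)) e
    (by rw [W.dim_prod]; omega) t2
  refine ⟨t3, fun y => (h3 y).trans ?_⟩
  change W.tr _ (W.cl t2 * W.pull (Obj.fst Z Y) y) = _
  have h2' : W.cl t2 = W.cl γ * W.cl t1 := h2
  have h1' : W.cl t1 = W.pull (Obj.snd Z Y) (W.cl w) := h1
  rw [h2', mul_assoc, W.central (W.cl_mem_algSpan t1), h1']

/-- the cycle `pr_{2*} (γ · pr_1^* z)` -/
lemma exists_forth {Z Y : 𝒱'.Obj} {e c : ℕ} (γ : Cyc (Z.prod Y) (e + c)) (h : e ≤ Z.dim)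
    (z : Cyc Z (Z.dim - e)) : ∃ t : Cyc Y c, ∀ y,
      W.deg (W.cl t * y) = W.deg (W.cl γ * W.cross (W.cl z) y) := by
  obtain ⟨t1, h1⟩ := W.alg_pull (Obj.fst Z Y) _ z
  obtain ⟨t2, h2⟩ := W.alg_mul _ _ _ γ t1
  obtain ⟨t3, h3⟩ := W.alg_push (Obj.snd Z Y) (e + c + (Z.dim - e)) c
    (by rw [W.dim_prod]; omega) t2
  refine ⟨t3, fun y => (h3 y).trans ?_⟩
  change W.tr _ (W.cl t2 * W.pull (Obj.snd Z Y) y) = _
  have h2' : W.cl t2 = W.cl γ * W.cl t1 := h2
  have h1' : W.cl t1 = W.pull (Obj.fst Z Y) (W.cl z) := h1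
  rw [h2', mul_assoc, h1']

lemma exists_back_sum {ι : Type*} [Fintype ι] {Z : 𝒱'.Obj} {Y : ι → 𝒱'.Obj} {e : ℕ} {c : ι → ℕ}
    (γ : ∀ a, Cyc (Z.prod (Y a)) (e + c a)) (w : ∀ a, Cyc (Y a) ((Y a).dim - c a))
    (h : ∀ a, (Y a).dim < c a → w a = 0) : ∃ t : Cyc Z e, ∀ y,
      W.deg (W.cl t * y) = ∑ a, W.deg (W.cl (γ a) * W.cross y (W.cl (w a))) := by
  classical
  have h1 : ∀ a, ∃ t : Cyc Z e, ∀ y,
      W.deg (W.cl t * y) = W.deg (W.cl (γ a) * W.cross y (W.cl (w a))) := by
    intro a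
    by_cases ha : c a ≤ (Y a).dim
    · exact exists_back W (γ a) ha (w a)
    · refine ⟨0, fun y => ?_⟩
      rw [h a (by omega)]
      change W.tr _ (W.cl (0 : Cyc Z e) * y) = W.tr _ (W.cl (γ a) * (_ * W.pull _ (W.cl 0)))
      rw [W.RatNT_cl_zero, W.RatNT_cl_zero, map_zero, mul_zero, mul_zero, zero_mul, map_zero,
        map_zero]
  choose t ht using h1
  refine ⟨∑ a, t a, fun y => ?_⟩
  have h2 : ∀ S : Finset ι, W.deg (W.cl (∑ a ∈ S, t a) * y) =
      ∑ a ∈ S, W.deg (W.cl (γ a) * W.cross y (W.cl (w a))) := by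
    intro S
    induction S using Finset.induction_on with
    | empty =>
      change W.tr _ _ = _
      rw [Finset.sum_empty, Finset.sum_empty, W.RatNT_cl_zero, zero_mul, map_zero]
    | insert a S ha ih =>
      rw [Finset.sum_insert ha, Finset.sum_insert ha, ← ih, ← ht a]
      change W.tr _ _ = W.tr _ _ + W.tr _ _
      rw [W.cl_add, add_mul, map_add]
  exact h2 _

end moves

/-- If `D` holds for the `Z b`, a tuple orthogonal to the boundaries of cycles is orthogonal to all
boundaries. -/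
lemma orth_boundary (hZ : ∀ b, HomEqNumAt W' (s.Z b) (s.e b)) (w : DT s)
    (h0 : ∀ a, (s.Y a).dim < s.c a → w a = 0) (hw : ∀ u ∈ bdU s W', tform s W' u w = 0)
    (x : s.Tup W') (hx : s.IsBoundary W' x) : ∑ a, W'.deg (x a * W'.cl (w a)) = 0 := by
  classical
  obtain ⟨y, hy⟩ := hx
  have h1 : ∀ b, ∀ y, ∑ a, W'.deg (W'.cl (s.Γ b a) * W'.cross y (W'.cl (w a))) = 0 := by
    intro b
    obtain ⟨t, ht⟩ := exists_back_sum W' (s.Γ b) w h0
    have ht0 : W'.cl t = 0 := by
      rw [← hZ b t]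
      intro j z hj
      obtain rfl : j = (s.Z b).dim - s.e b := by omega
      have h2 : ∀ a, ∃ u : Cyc (s.Y a) (s.c a), ∀ y, W'.deg (W'.cl u * y) =
          W'.deg (W'.cl (s.Γ b a) * W'.cross (W'.cl z) y) := fun a =>
        exists_forth W' (s.Γ b a) (by omega) z
      choose u hu using h2
      have h3 : u ∈ bdU s W' := by
        refine ⟨Pi.single b z, fun a y => ?_⟩
        rw [hu, Finset.sum_eq_single b]
        · rw [Pi.single_eq_same]
        · intro b' _ hb
          rw [Pi.single_eq_of_ne hb]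
          change W'.tr _ (W'.cl (s.Γ b' a) * (W'.pull _ (W'.cl 0) * _)) = 0
          rw [W'.RatNT_cl_zero, map_zero, zero_mul, mul_zero, map_zero]
        · intro h
          exact absurd (Finset.mem_univ b) h
      have h4 := hw u h3
      have h5 := tform_apply s W' u w
      rw [h4, Rat.cast_zero] at h5
      have h6 := ht (W'.cl z)
      refine h6.trans (Eq.trans ?_ h5.symm)
      exact Finset.sum_congr rfl fun a _ => (hu a (W'.cl (w a))).symm
    intro y
    rw [← ht y, ht0, zero_mul]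
    exact map_zero (W'.tr _)
  calc ∑ a, W'.deg (x a * W'.cl (w a))
      = ∑ a, ∑ b, W'.deg (W'.cl (s.Γ b a) * W'.cross (y b) (W'.cl (w a))) :=
        Finset.sum_congr rfl fun a _ => hy a _
    _ = ∑ b, ∑ a, W'.deg (W'.cl (s.Γ b a) * W'.cross (y b) (W'.cl (w a))) := Finset.sum_comm
    _ = 0 := Finset.sum_eq_zero fun b _ => h1 b (y b)

/-- The main lemma: under `D` for the `Y a` and the `Z b`, if `sp z` is numerically trivial modulo
boundaries then it is a boundary (of cycles). -/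
theorem exists_bdU (h : s.HomEqNum W') {z : Cyc X i} (hz : s.NumTrivial W' z) :
    ∃ u ∈ bdU s W', ∀ a, W'.cl (u a) = W'.cl (s.sp z a) := by
  classical
  obtain ⟨T, hT, hT1, hT2⟩ := exists_family s W'
  choose wT hwT using fun t : T => hT1 t.2
  have key : ∀ c : CT s, (∀ t : T, tform s W' c (wT t) = 0) → ∀ v, tform s W' c v = 0 := by
    intro c hc v
    apply Rat.cast_injective (α := K)
    rw [Rat.cast_zero, tform_apply]
    have h1 : ∀ x ∈ Submodule.span K T, ∑ a, W'.deg (W'.cl (c a) * x a) = 0 := by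
      intro x hx
      induction hx using Submodule.span_induction with
      | mem x hx =>
        have h2 := tform_apply s W' c (wT ⟨x, hx⟩)
        rw [hc, Rat.cast_zero] at h2
        refine Eq.trans (Finset.sum_congr rfl fun a _ => ?_) h2.symm
        have h3 := congrFun (hwT ⟨x, hx⟩) a
        change W'.cl (wT ⟨x, hx⟩ a) = x a at h3
        rw [h3]
      | zero =>
        refine Finset.sum_eq_zero fun a _ => ?_
        change W'.tr _ (_ * (0 : W'.H (s.Y a))) = 0
        rw [mul_zero, map_zero]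
      | add x y _ _ hx hy =>
        have h2 : ∀ a, W'.deg (W'.cl (c a) * (x + y) a) = W'.deg (W'.cl (c a) * x a) +
            W'.deg (W'.cl (c a) * y a) := fun a => by
          change W'.tr _ (_ * (x a + y a)) = _
          rw [mul_add, map_add]
        rw [Finset.sum_congr rfl fun a _ => h2 a, Finset.sum_add_distrib, hx, hy, add_zero]
      | smul r x _ hx =>
        have h2 : ∀ a, W'.deg (W'.cl (c a) * (r • x) a) = r * W'.deg (W'.cl (c a) * x a) :=
          fun a => by
          change W'.tr _ (_ * (r • x a)) = _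
          rw [mul_smul_comm, map_smul, smul_eq_mul]
        rw [Finset.sum_congr rfl fun a _ => h2 a, ← Finset.mul_sum, hx, mul_zero]
    exact h1 _ (hT2 ⟨v, rfl⟩)
  obtain ⟨u, hu, hv⟩ := exists_sub_ann (tform s W') wT key (bdU s W') (s.sp z) (by
    intro w hw
    -- replace `w` by its components in the right range
    let w' : DT s := fun a => if (s.Y a).dim < s.c a then 0 else w a
    have hw' : ∀ c : CT s, tform s W' c w' = tform s W' c w := by
      intro c
      apply Rat.cast_injective (α := K)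
      rw [tform_apply, tform_apply]
      refine Finset.sum_congr rfl fun a _ => ?_
      by_cases ha : (s.Y a).dim < s.c a
      · rw [cl_eq_zero_of_lt W' ha, zero_mul, zero_mul]
      · change W'.deg (W'.cl (c a) * W'.cl (if (s.Y a).dim < s.c a then 0 else w a)) = _
        rw [if_neg ha]
    rw [← hw']
    apply Rat.cast_injective (α := K)
    rw [Rat.cast_zero, tform_apply]
    refine hz w' fun x hx => orth_boundary s W' h.2 w' (fun a ha => if_pos ha) (fun u hu => ?_) x hx
    rw [hw', hw u hu])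
  refine ⟨u, hu, fun a => ?_⟩
  have h1 : W'.cl ((s.sp z - u) a) = 0 := by
    refine (h.1 a _).1 (numTrivial_of_numF W' fun z' => ?_)
    have h2 := hv (Pi.single a z')
    have h3 := tform_apply s W' (s.sp z - u) (Pi.single a z')
    rw [h2, Rat.cast_zero, Finset.sum_eq_single a] at h3
    · apply Rat.cast_injective (α := K)
      rw [numF_apply, Rat.cast_zero, h3, Pi.single_eq_same]
    · intro a' _ ha
      rw [Pi.single_eq_of_ne ha]
      change W'.tr _ (_ * W'.cl 0) = 0
      rw [W'.RatNT_cl_zero, mul_zero, map_zero]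
    · intro h
      exact absurd (Finset.mem_univ a) h
  have h2 : s.sp z a = (s.sp z - u) a + u a := by
    rw [Pi.sub_apply, sub_add_cancel]
  rw [h2, W'.cl_add, h1, zero_add]

theorem isBoundary_of_numTrivial (h : s.HomEqNum W') {z : Cyc X i} (hz : s.NumTrivial W' z) :
    s.IsBoundary W' (s.spCl W' z) := by
  obtain ⟨u, hu, h1⟩ := exists_bdU s W' h hz
  have h2 : s.spCl W' z = fun a => W'.cl (u a) := funext fun a => (h1 a).symm
  rw [h2]
  exact isBoundary_of_bdU s W' hu

end H82R
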