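import Pool.Agent.W_f569db_h64.Defs

set_option autoImplicit false

/-!
# Specialisation of cycles up to boundaries

`SpData`: maps from the cycles of codimension `i` on `X` to tuples of cycles on finitely many
varieties `Y_a` (over another field), considered up to boundaries, the images of the correspondences
given by cycles `Γ_{b a}` on `Z_b × Y_a`.  For instance, if `X` has good reduction, there is one
variety `Y` and no `Z_b`, and for strictly semistable reduction these are the terms
`E_1 ^ {-1} → E_1 ^ 0` of the weight spectral sequence: the varieties `Y_a` (respectively `Z_b`) are the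
connected components of the intersections of an odd (respectively even) number of components of the
special fibre, and the `Γ_{b a}` are the graphs of the inclusions, up to sign.
-/

noncomputable section

namespace H82R

open Pool.Agent.WeilH_h6 Pool.Agent.WeilH_h6.VarClass H64N

universe u v w

/-- A map `sp` from the cycles of codimension `i` on `X` to tuples of cycles of codimension `c a` on
the varieties `Y a`, and cycles `Γ b a` of codimension `e b + c a` on `Z b × Y a`. -/
structure SpData {k : Type u} [Field k] {𝒱 : VarClass k} (X : 𝒱.Obj) (i : ℕ) {k' : Type u}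
    [Field k'] (𝒱' : VarClass k') where
  /-- the index set of the `Y a` -/
  A : Type
  [finA : Fintype A]
  Y : A → 𝒱'.Obj
  c : A → ℕ
  sp : Cyc X i → ∀ a, Cyc (Y a) (c a)
  /-- the index set of the `Z b` -/
  B : Type
  [finB : Fintype B]
  Z : B → 𝒱'.Obj
  e : B → ℕ
  Γ : ∀ b a, Cyc ((Z b).prod (Y a)) (e b + c a)

attribute [instance] SpData.finA SpData.finB

namespace SpData

variable {k : Type u} [Field k] {𝒱 : VarClass k} {K : Type v} [Field K]
  (W : Weil.{u, v, w} 𝒱 K) {X : 𝒱.Obj} {i : ℕ} {k' : Type u} [Field k'] {𝒱' : VarClass k'}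
  (s : SpData X i 𝒱') (W' : Weil.{u, v, w} 𝒱' K)

/-- Tuples of cohomology classes on the `Y a`. -/
abbrev Tup : Type w := ∀ a, W'.H (s.Y a)

/-- The tuple `x` is a boundary: `x_a = ∑_b (Γ_{b a})_* (y_b)` for some classes `y_b` on `Z_b`, where
`Tr (γ_* (y) · v) = Tr (γ · (y × v))` for all `v`. -/
def IsBoundary (x : s.Tup W') : Prop :=
  ∃ y : ∀ b, W'.H (s.Z b), ∀ a v,
    W'.deg (x a * v) = ∑ b, W'.deg (W'.cl (s.Γ b a) * W'.cross (y b) v)

/-- The classes of the tuple `sp z`. -/
def spCl (z : Cyc X i) : s.Tup W' := fun a => W'.cl (s.sp z a)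

/-- `sp` preserves the linear relations with algebraic coefficients between the classes of cycles, up
to boundaries. -/
def PreservesRel [CharZero K] : Prop :=
  ∀ (r : ℕ) (t : Fin r → K) (y : Fin r → Cyc X i), (∀ l, IsAlgebraic ℚ (t l)) →
    ∑ l, t l • W.cl (y l) = 0 → s.IsBoundary W' (∑ l, t l • s.spCl W' (y l))

/-- If `sp z` is a boundary then `z` is homologically equivalent to zero. -/
def ReflectsZero : Prop := ∀ z : Cyc X i, s.IsBoundary W' (s.spCl W' z) → W.cl z = 0

/-- `sp z` is numerically trivial modulo boundaries: it is orthogonal to all tuples of cycles of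
complementary codimension which are orthogonal to all boundaries. -/
def NumTrivial (z : Cyc X i) : Prop :=
  ∀ w : ∀ a, Cyc (s.Y a) ((s.Y a).dim - s.c a),
    (∀ x, s.IsBoundary W' x → ∑ a, W'.deg (x a * W'.cl (w a)) = 0) →
      ∑ a, W'.deg (s.spCl W' z a * W'.cl (w a)) = 0

/-- `D` for the `Y a` in codimension `c a` and for the `Z b` in codimension `e b`. -/
def HomEqNum : Prop :=
  (∀ a, HomEqNumAt W' (s.Y a) (s.c a)) ∧ ∀ b, HomEqNumAt W' (s.Z b) (s.e b)

end SpData

end H82R
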