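import Pool.Agent.W_f569db_v2.Ann

set_option autoImplicit false

/-!
# Numerical equivalence and specialisation up to boundaries
-/

noncomputable section

namespace H82R

open Pool.Agent.WeilH_h6 Pool.Agent.WeilH_h6.VarClass Pool.Agent.WeilH_h6.Weil H64N

universe u v w

variable {k : Type u} [Field k] {𝒱 : VarClass k} {K : Type v} [Field K] [CharZero K]
  (W : Weil.{u, v, w} 𝒱 K) {k' : Type u} [Field k'] {𝒱' : VarClass k'}
  {X : 𝒱.Obj} {i : ℕ} (s : SpData X i 𝒱') (W' : Weil.{u, v, w} 𝒱' K)

/-- The pairing of a tuple of classes with a tuple of cycles. -/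
def pr (w : DT s) : s.Tup W' →ₗ[K] K :=
  ∑ a, (W'.tr (s.Y a) ∘ₗ (LinearMap.mulRight K (W'.cl (w a)))) ∘ₗ LinearMap.proj a

omit [CharZero K] in
lemma pr_apply (w : DT s) (x : s.Tup W') : pr s W' w x = ∑ a, W'.deg (x a * W'.cl (w a)) := by
  unfold pr
  rw [LinearMap.sum_apply]
  rfl

/-- A relation between classes with coefficients `t` independent over `ℚ`, mapped to a boundary:
all the cycles are numerically trivial modulo boundaries. -/
lemma numTrivial_of_rel {r : ℕ} {t : Fin r → K} {y : Fin r → Cyc X i} (ht : Indep t)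
    (h : s.IsBoundary W' (∑ l, t l • s.spCl W' (y l))) (l : Fin r) :
    s.NumTrivial W' (y l) := by
  intro w hw
  have h1 := hw _ h
  rw [← pr_apply, map_sum] at h1
  have h2 : ∀ l, pr s W' w (s.spCl W' (y l)) = (tform s W' (s.sp (y l)) w : K) := by
    intro l
    rw [pr_apply, tform_apply]
    rfl
  have h3 : ∑ l, ((tform s W' (s.sp (y l)) w : ℚ) : K) * t l = 0 := by
    rw [← h1]
    refine Finset.sum_congr rfl fun l _ => ?_
    rw [map_smul, smul_eq_mul, h2, mul_comm]
  have h4 := congrFun (ht _ h3) l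
  rw [← pr_apply, h2]
  change tform s W' (s.sp (y l)) w = 0 at h4
  rw [h4, Rat.cast_zero]

variable {s W W'}

lemma spCl_zero_bd (hs : s.PreservesRel W W') {z : Cyc X i} (hz : W.cl z = 0) :
    s.IsBoundary W' (s.spCl W' z) := by
  have h1 := hs 1 (fun _ => 1) (fun _ => z) (fun _ => isAlgebraic_one) (by
    rw [Fin.sum_univ_one, hz, smul_zero])
  rwa [Fin.sum_univ_one, one_smul] at h1

lemma spCl_add_bd (hs : s.PreservesRel W W') (z z' : Cyc X i) :
    s.IsBoundary W' (s.spCl W' (z + z') - s.spCl W' z - s.spCl W' z') := by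
  have h1 := hs 3 ![1, -1, -1] ![z + z', z, z'] (by
      intro a
      fin_cases a
      · exact isAlgebraic_one
      · exact isAlgebraic_one.neg
      · exact isAlgebraic_one.neg) (by
    rw [Fin.sum_univ_three]
    change (1 : K) • W.cl (z + z') + (-1 : K) • W.cl z + (-1 : K) • W.cl z' = 0
    rw [W.cl_add, one_smul, neg_one_smul, neg_one_smul]
    abel)
  rw [Fin.sum_univ_three] at h1
  change s.IsBoundary W' ((1 : K) • s.spCl W' (z + z') + (-1 : K) • s.spCl W' z +
    (-1 : K) • s.spCl W' z') at h1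
  rwa [one_smul, neg_one_smul, neg_one_smul, ← sub_eq_add_neg, ← sub_eq_add_neg] at h1

lemma spCl_smul_bd (hs : s.PreservesRel W W') (q : ℚ) (z : Cyc X i) :
    s.IsBoundary W' (s.spCl W' (q • z) - (q : K) • s.spCl W' z) := by
  have h1 := hs 2 ![1, -(q : K)] ![q • z, z] (by
      intro a
      fin_cases a
      · exact isAlgebraic_one
      · exact (isAlgebraic_algebraMap (q : ℚ)).neg) (by
    rw [Fin.sum_univ_two]
    change (1 : K) • W.cl (q • z) + (-(q : K)) • W.cl z = 0
    rw [W.cl_smul, one_smul, neg_smul, add_neg_cancel])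
  rw [Fin.sum_univ_two] at h1
  change s.IsBoundary W' ((1 : K) • s.spCl W' (q • z) + (-(q : K)) • s.spCl W' z) at h1
  rwa [one_smul, neg_smul, ← sub_eq_add_neg] at h1

lemma numTrivial_congr {x : s.Tup W'} {z : Cyc X i} {w : DT s}
    (hw : ∀ x, s.IsBoundary W' x → ∑ a, W'.deg (x a * W'.cl (w a)) = 0)
    (h : s.IsBoundary W' (s.spCl W' z - x)) : ∑ a, W'.deg (s.spCl W' z a * W'.cl (w a)) =
      ∑ a, W'.deg (x a * W'.cl (w a)) := by
  have h1 := hw _ h
  rw [← pr_apply, map_sub, sub_eq_zero] at h1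
  rw [← pr_apply, ← pr_apply, h1]

/-- Cycles which are rational combinations of coefficients of relations are mapped to cycles which are
numerically trivial modulo boundaries. -/
theorem numTrivial_of_mem_relCyc' (hs : s.PreservesRel W W') {z : Cyc X i}
    (hz : z ∈ relCyc W X i {t | IsAlgebraic ℚ t}) : s.NumTrivial W' z := by
  unfold relCyc at hz
  induction hz using Submodule.span_induction with
  | mem z hz =>
    obtain ⟨r, t, y, h1, h2, h3, rfl⟩ := hz
    exact numTrivial_of_rel s W' h2 (hs _ t y h1 h3) 0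
  | zero =>
    intro w hw
    exact hw _ (spCl_zero_bd hs W.RatNT_cl_zero)
  | add z z' _ _ hz hz' =>
    intro w hw
    rw [numTrivial_congr hw (x := s.spCl W' z + s.spCl W' z') (by
      rw [← sub_sub]
      exact spCl_add_bd hs z z'), ← pr_apply, map_add, pr_apply, pr_apply]
    have e1 : ∑ a, W'.deg (s.spCl W' z a * W'.cl (w a)) = 0 := hz w hw
    have e2 : ∑ a, W'.deg (s.spCl W' z' a * W'.cl (w a)) = 0 := hz' w hw
    rw [e1, e2, add_zero]
  | smul q z _ hz =>
    intro w hw
    rw [numTrivial_congr hw (x := (q : K) • s.spCl W' z) (spCl_smul_bd hs q z), ← pr_apply,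
      map_smul, pr_apply]
    have e1 : ∑ a, W'.deg (s.spCl W' z a * W'.cl (w a)) = 0 := hz w hw
    rw [e1, smul_zero]

/-- the identity as a specialisation -/
def idData (X : 𝒱.Obj) (i : ℕ) : SpData X i 𝒱 where
  A := Unit
  Y := fun _ => X
  c := fun _ => i
  sp := fun z _ => z
  B := Empty
  Z := fun b => b.elim
  e := fun b => b.elim
  Γ := fun b => b.elim

lemma idData_bd {x : (idData X i).Tup W} : (idData X i).IsBoundary W x ↔ x = 0 := by
  constructor
  · rintro ⟨y, hy⟩
    funext a
    refine W.duality X _ fun v => ?_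
    refine (hy a v).trans ?_
    exact Finset.sum_eq_zero fun b _ => b.elim
  · rintro rfl
    refine ⟨fun b => b.elim, fun a v => ?_⟩
    refine Eq.trans ?_ (Finset.sum_eq_zero fun b _ => b.elim).symm
    let v' : W.H X := v
    change W.tr X (0 * v') = 0
    rw [zero_mul, map_zero]

lemma idData_preserves : (idData X i).PreservesRel W W := by
  intro r t y _ h
  rw [idData_bd]
  funext a
  rw [Finset.sum_apply]
  exact h

lemma idData_reflects : (idData X i).ReflectsZero W W := by
  intro z hz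
  rw [idData_bd] at hz
  exact congrFun hz ()

lemma idData_numTrivial {z : Cyc X i} (h : (idData X i).NumTrivial W z) : W.NumTrivial z := by
  intro j z' hij
  obtain rfl : j = X.dim - i := by omega
  have h1 := h (fun _ => z') (fun x hx => by
    rw [idData_bd] at hx
    rw [hx]
    refine Finset.sum_eq_zero fun a _ => ?_
    change W.tr X (0 * _) = 0
    rw [zero_mul, map_zero])
  have e : ∑ _a : Unit, W.tr X (W.cl z * W.cl z') = 0 := h1
  rwa [Finset.univ_unique, Finset.sum_singleton] at e

lemma idData_homEqNum (h : HomEqNumAt W X i) : (idData X i).HomEqNum W :=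
  ⟨fun _ => h, fun b => b.elim⟩

section main

variable {X : 𝒱.Obj} {I : Type} [Fintype I] {P : W.Pieces X I} {S : Set (W.Hom X X)}

/-- Specialisation up to boundaries preserves numerical triviality. -/
theorem numTrivial_sp (hS : P.AbsIrr S) (D : P.RatData) (hD : NumClass D) (hG : RatGenerate P)
    {m i : ℕ} {s : SpData (X.pow m) i 𝒱'} (hs : s.PreservesRel W W') {z : Cyc (X.pow m) i}
    (hz : W.NumTrivial z) : s.NumTrivial W' z :=
  numTrivial_of_mem_relCyc' hs (mem_relCyc_of_numTrivial hS D hD hG hz)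

/-- `D` for the `Y a` and `Z b` implies `D` for `X^m`. -/
theorem homEqNumAt_of_sp (hS : P.AbsIrr S) (D : P.RatData) (hD : NumClass D) (hG : RatGenerate P)
    {m i : ℕ} {s : SpData (X.pow m) i 𝒱'} (hs : s.PreservesRel W W') (hr : s.ReflectsZero W W')
    (h : s.HomEqNum W') : HomEqNumAt W (X.pow m) i := by
  intro z
  constructor
  · intro hz
    exact hr z (isBoundary_of_numTrivial s W' h (numTrivial_sp hS D hD hG hs hz))
  · intro hz j z' _
    rw [hz, zero_mul, map_zero]

variable (W)

theorem main (X : 𝒱.Obj) {I : Type} [Fintype I] (P : W.Pieces X I)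
    (S : Set (W.Hom X X)) (hS : P.AbsIrr S) (D : P.RatData) (hD : NumClass D)
    (hG : RatGenerate P) (m j : ℕ) :
    (∀ z : Cyc (X.pow m) j, List.TFAE [W.NumTrivial z,
      ∀ (k' : Type u) (_ : Field k') (𝒱' : VarClass k') (W' : Weil.{u, v, w} 𝒱' K)
        (s : SpData (X.pow m) j 𝒱'), s.PreservesRel W W' → s.NumTrivial W' z,
      z ∈ relCyc W (X.pow m) j {t | IsAlgebraic ℚ t}, z ∈ relCyc W (X.pow m) j Set.univ]) ∧
    List.TFAE [HomEqNumAt W (X.pow m) j,
      ∃ (k' : Type u) (_ : Field k') (𝒱' : VarClass k') (W' : Weil.{u, v, w} 𝒱' K)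
        (s : SpData (X.pow m) j 𝒱'), s.PreservesRel W W' ∧ s.ReflectsZero W W' ∧ s.HomEqNum W',
      CycIndepAt W (X.pow m) j Set.univ, CycIndepAt W (X.pow m) j {t | IsAlgebraic ℚ t}] := by
  refine ⟨fun z => ?_, ?_⟩
  · have h := numTrivial_tfae hS D hD hG z
    tfae_have 1 → 2 := fun hz k' _ 𝒱' W' s hs => numTrivial_sp hS D hD hG hs hz
    tfae_have 2 → 1 := fun h => idData_numTrivial
      (h k inferInstance 𝒱 W (idData (X.pow m) j) idData_preserves)
    tfae_have 1 ↔ 3 := h.out 0 2
    tfae_have 1 ↔ 4 := h.out 0 3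
    tfae_finish
  · have h := homEqNumAt_tfae hS D hD hG m j
    tfae_have 1 → 2 := fun h => ⟨k, inferInstance, 𝒱, W, idData (X.pow m) j, idData_preserves,
      idData_reflects, idData_homEqNum h⟩
    tfae_have 2 → 1 := by
      rintro ⟨k', _, 𝒱', W', s, h1, h2, h3⟩
      exact homEqNumAt_of_sp hS D hD hG h1 h2 h3
    tfae_have 1 ↔ 3 := h.out 0 2
    tfae_have 1 ↔ 4 := h.out 0 3
    tfae_finish

end main

end H82R
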