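import Pool.Agent.W_f569db_v2.Main

set_option autoImplicit false

/-!
# Numerical equivalence is compatible with specialisation, and its description by relations

`W` is a Weil cohomology theory with coefficients in a field `K` of characteristic zero, `X` a variety,
`V_i = p_i H(X)` finitely many direct summands cut out by algebraic idempotents, on which a set `S` of
symmetries acts absolutely irreducibly, and which generate `H(X)` by means of correspondences with
rational coefficients; the `p_i` are combinations of rational correspondences with algebraic numbers of
`K` as coefficients, the automorphisms of `K` permute the `p_i`, and for every `i` and every sign some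
tensor product of conjugates of `V_i` (respectively of `V_i^∨`) contains an algebraic class which is not
numerically trivial.  (Example: abelian varieties in positive characteristic, by a
theorem of Zarhin.)

Let `m`, `j` be fixed, and consider cycles of codimension `j` on `X^m` with rational coefficients.

1. For a cycle `z` the following are equivalent: `z` is numerically trivial; `sp z` is numerically
   trivial modulo boundaries, for all maps `sp` from cycles on `X^m` to tuples of cycles on finitely many
   varieties `Y_a` over some field `k'` (with a Weil cohomology theory over `k'` with the same
   coefficients), and all cycles `Γ_{b a}` on products `Z_b × Y_a`, such that `sp` preserves the linear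
   relations with algebraic coefficients between the classes of cycles, up to boundaries, the images
   of the `Γ_{b a}` (for instance specialisation at a place of good or semistable reduction); `z` is a `ℚ`-linear combination of cycles which occur in a relation between classes whose
   coefficients are algebraic elements of `K`, linearly independent over `ℚ`; the same with arbitrary
   coefficients in `K`.
2. The following are equivalent: `D` for `X^m` in codimension `j`; `D` for the `Y_a` and the `Z_b`, in
   the codimensions concerned, for some such `sp` for which `sp z` is a boundary only if `z` is
   homologically trivial; condition `I` of Tate for `X^m` in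
   codimension `j`; the same condition for algebraic coefficients.
-/

namespace H82R.Result

open Pool.Agent.WeilH_h6 VarClass H64N H82R

universe u v w

theorem result {k : Type u} [Field k] {𝒱 : VarClass k} {K : Type v} [Field K] [CharZero K]
    (W : Weil.{u, v, w} 𝒱 K) (X : 𝒱.Obj) {I : Type} [Fintype I] (P : W.Pieces X I)
    (S : Set (W.Hom X X)) (hS : P.AbsIrr S) (D : P.RatData) (hD : NumClass D)
    (hG : RatGenerate P) (m j : ℕ) :
    (∀ z : Cyc (X.pow m) j, List.TFAE [W.NumTrivial z,
      ∀ (k' : Type u) (_ : Field k') (𝒱' : VarClass k') (W' : Weil.{u, v, w} 𝒱' K)
        (s : SpData (X.pow m) j 𝒱'), s.PreservesRel W W' → s.NumTrivial W' z,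
      z ∈ relCyc W (X.pow m) j {t | IsAlgebraic ℚ t}, z ∈ relCyc W (X.pow m) j Set.univ]) ∧
    List.TFAE [HomEqNumAt W (X.pow m) j,
      ∃ (k' : Type u) (_ : Field k') (𝒱' : VarClass k') (W' : Weil.{u, v, w} 𝒱' K)
        (s : SpData (X.pow m) j 𝒱'), s.PreservesRel W W' ∧ s.ReflectsZero W W' ∧ s.HomEqNum W',
      CycIndepAt W (X.pow m) j Set.univ, CycIndepAt W (X.pow m) j {t | IsAlgebraic ℚ t}] :=
  H82R.main W X P S hS D hD hG m j

end H82R.Result
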